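import Pool.Agent.helper95.FJ.SpecC
import Pool.Agent.helper40.FI.BDY

/-!
# fj:CZP: the `z` with `ac z w` in a short interval, for one `w`
-/

set_option autoImplicit false

open Finset Pool.Agent.FI

noncomputable section

namespace Pool.Agent.FJ

theorem CZP (hFFC : FFC_stmt) : CZP_stmt := by
  classical
  refine ⟨48, by norm_num, ?_⟩
  intro N x hN hx z₀ hz₀ w hw T Y hY
  have hN0 : (0 : ℝ) < N := by exact_mod_cast hN
  have hN1 : (1 : ℝ) ≤ N := by exact_mod_cast hN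
  have hx0 : (0 : ℝ) < x := by exact_mod_cast hx
  have hs : 0 < √(N : ℝ) := Real.sqrt_pos.2 hN0
  have hss : √(N : ℝ) * √(N : ℝ) = N := Real.mul_self_sqrt hN0.le
  have hb := (hFFC (2 * N)).2
  -- real bounds for the coordinates
  have hco : ∀ z ∈ ZD N, |(z.1 : ℝ)| ≤ 2 * √(N : ℝ) ∧ |(z.2 : ℝ)| ≤ 2 * √(N : ℝ) := by
    intro z hz
    have h1 := hb z (mem_filter.1 hz).1
    have h2 : (z.1 : ℝ) ^ 2 ≤ 2 * (2 * N) := by
      have := h1.1
      push_cast at this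
      exact_mod_cast this
    have h3 : (z.2 : ℝ) ^ 2 ≤ 2 * N := by
      have := h1.2
      push_cast at this
      exact_mod_cast this
    have h4 : (2 * √(N : ℝ)) ^ 2 = 4 * N := by
      rw [mul_pow, Real.sq_sqrt hN0.le]
      norm_num
    constructor
    · apply abs_le_of_sq_le_sq _ (by positivity)
      rw [h4]
      linarith
    · apply abs_le_of_sq_le_sq _ (by positivity)
      rw [h4]
      linarith
  -- a large coordinate of `w`
  set k : ℝ := x / (4 * √(N : ℝ)) with hk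
  have hk0 : 0 < k := by positivity
  have hlarge : k ≤ |(w.1 : ℝ)| ∨ k ≤ |((8 * w.2 : ℤ) : ℝ)| := by
    by_contra hcon
    push Not at hcon
    obtain ⟨h1, h2⟩ := hcon
    have h3 : |(w.2 : ℝ)| < k := by
      push_cast at h2
      rw [abs_mul] at h2
      have h4 : |(8 : ℝ)| = 8 := by norm_num
      rw [h4] at h2
      have := abs_nonneg (w.2 : ℝ)
      linarith
    obtain ⟨h4, h5⟩ := hco z₀ hz₀
    have h6 : (x : ℝ) < z₀.1 * w.2 + z₀.2 * w.1 := by
      unfold lc at hw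
      exact_mod_cast hw
    have h7 : (z₀.1 : ℝ) * w.2 + z₀.2 * w.1 ≤ |(z₀.1 : ℝ)| * |(w.2 : ℝ)| + |(z₀.2 : ℝ)| * |(w.1 : ℝ)| := by
      have e1 := le_abs_self ((z₀.1 : ℝ) * w.2)
      have e2 := le_abs_self ((z₀.2 : ℝ) * w.1)
      rw [abs_mul] at e1 e2
      linarith
    have h8 : |(z₀.1 : ℝ)| * |(w.2 : ℝ)| ≤ 2 * √(N : ℝ) * k :=
      mul_le_mul h4 h3.le (abs_nonneg _) (by positivity)
    have h9 : |(z₀.2 : ℝ)| * |(w.1 : ℝ)| ≤ 2 * √(N : ℝ) * k :=
      mul_le_mul h5 h1.le (abs_nonneg _) (by positivity)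
    have h10 : 4 * √(N : ℝ) * k = x := by
      rw [hk]
      field_simp
    linarith
  -- the box
  set R : ℕ := Nat.sqrt (4 * N) with hR
  have hR1 : 1 ≤ R := by
    rw [hR, Nat.le_sqrt]
    omega
  have hRr : (R : ℝ) ≤ 2 * √(N : ℝ) := by
    have h1 : R * R ≤ 4 * N := Nat.sqrt_le _
    have h2 : (R : ℝ) * R ≤ 4 * N := by exact_mod_cast h1
    apply le_of_abs_le
    apply abs_le_of_sq_le_sq _ (by positivity)
    rw [mul_pow, Real.sq_sqrt hN0.le]
    nlinarith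
  have hsub : ZD N ⊆ Bx R := by
    intro z hz
    have h1 := hb z (mem_filter.1 hz).1
    have hsq : ∀ t : ℤ, t ^ 2 ≤ 4 * N → -(R : ℤ) ≤ t ∧ t ≤ R := by
      intro t ht
      have h2 : t.natAbs ≤ R := by
        rw [hR, Nat.le_sqrt]
        have h3 : ((t.natAbs * t.natAbs : ℕ) : ℤ) ≤ ((4 * N : ℕ) : ℤ) := by
          rw [Int.natAbs_mul_self]
          push_cast
          nlinarith
        exact_mod_cast h3
      omega
    unfold Bx
    rw [mem_product, mem_Icc, mem_Icc]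
    have h2 := h1.1
    have h3 := h1.2
    push_cast at h2 h3
    refine ⟨hsq z.1 (by linarith), hsq z.2 (by linarith)⟩
  have h1 : (#{z ∈ ZD N | |(ac z w : ℝ) - T| ≤ Y} : ℝ) ≤
      ∑ z ∈ Bx R, if |((w.1 * z.1 + 8 * w.2 * z.2 : ℤ) : ℝ) - T| ≤ Y then (1 : ℝ) else 0 := by
    rw [← Finset.natCast_card_filter]
    have h2 : #{z ∈ ZD N | |(ac z w : ℝ) - T| ≤ Y} ≤
        #{z ∈ Bx R | |((w.1 * z.1 + 8 * w.2 * z.2 : ℤ) : ℝ) - T| ≤ Y} := by
      apply card_le_card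
      intro z hz
      rw [mem_filter] at hz ⊢
      refine ⟨hsub hz.1, ?_⟩
      have h3 : (w.1 * z.1 + 8 * w.2 * z.2 : ℤ) = ac z w := by
        unfold ac
        ring
      rw [h3]
      exact hz.2
    exact_mod_cast h2
  refine h1.trans ((BDY_box R w.1 (8 * w.2) T Y k hR1 hk0 hlarge hY).trans ?_)
  have hYk : Y / k = 4 * (Y * √(N : ℝ) / x) := by
    rw [hk]
    field_simp
  rw [hYk]
  have h2 : 0 ≤ Y * √(N : ℝ) / x := by positivity
  have h3 : (R : ℝ) * (4 * (Y * √(N : ℝ) / x) + 1) ≤ 2 * √(N : ℝ) * (4 * (Y * √(N : ℝ) / x) + 1) :=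
    mul_le_mul_of_nonneg_right hRr (by positivity)
  have h4 : 2 * √(N : ℝ) * (4 * (Y * √(N : ℝ) / x) + 1) ≤ 8 * (√(N : ℝ) * (Y * √(N : ℝ) / x + 1)) := by
    nlinarith
  linarith

end Pool.Agent.FJ
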